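import Mathlib

/-!
# A symmetric order condition without connection does not force palindromes

For every `k ≥ 4` we give a language on `k` letters that satisfies the order condition for a
symmetric pair of orders, has no connection, and has only three palindromes of each odd
length at least three.  It is the set of walks of a directed graph on `k` vertices: the only
bispecial word is the empty one.
-/

namespace Pool.Agent.Results.MP_0168d2_co.FewPalindromes

variable {α : Type}

/-- A language on the alphabet `α` (all letters of `α` occur), as in the problem: it contains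
the empty word, it is factorial (removing the first or the last letter of a word of the
language gives a word of the language) and extendable (every word of the language can be
extended by a letter to the left, and by a letter to the right, inside the language). -/
structure IsLanguage (L : Set (List α)) : Prop where
  nil_mem : [] ∈ L
  letters : ∀ a : α, [a] ∈ L
  factorial_left : ∀ (a : α) (u : List α), a :: u ∈ L → u ∈ L
  factorial_right : ∀ (u : List α) (b : α), u ++ [b] ∈ L → u ∈ L
  extend_left : ∀ v ∈ L, ∃ a : α, a :: v ∈ L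
  extend_right : ∀ v ∈ L, ∃ b : α, v ++ [b] ∈ L

/-- `w` is bispecial in `L`: at least two left extensions and at least two right extensions. -/
def Bispecial (L : Set (List α)) (w : List α) : Prop :=
  (∃ a a' : α, a ≠ a' ∧ a :: w ∈ L ∧ a' :: w ∈ L) ∧
    (∃ b b' : α, b ≠ b' ∧ w ++ [b] ∈ L ∧ w ++ [b'] ∈ L)

/-- The order condition for the pair of relations `(rA, rD)`. -/
def OrderCondition (L : Set (List α)) (rA rD : α → α → Prop) : Prop :=
  ∀ v : List α, Bispecial L v → ∀ x x' y y' : α,
    x :: (v ++ [y]) ∈ L → x' :: (v ++ [y']) ∈ L → x ≠ x' → y ≠ y' → (rA x x' ↔ rD y y')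

/-- `b` comes immediately after `a` in the order `r`. -/
def Consecutive (r : α → α → Prop) (a b : α) : Prop :=
  r a b ∧ ∀ c : α, ¬ (r a c ∧ r c b)

/-- The bispecial word `w` has a connection for the pair `(rA, rD)`. -/
def HasConnection (L : Set (List α)) (rA rD : α → α → Prop) (w : List α) : Prop :=
  Bispecial L w ∧ ∃ a a' b b' : α, Consecutive rA a a' ∧ Consecutive rD b b' ∧
    a :: (w ++ [b]) ∈ L ∧ a' :: (w ++ [b']) ∈ L ∧
    a :: (w ++ [b']) ∉ L ∧ a' :: (w ++ [b]) ∉ L

/-- The palindromic complexity: the number of palindromes of length `n` in `L`. -/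
noncomputable def PC (L : Set (List α)) (n : ℕ) : ℕ :=
  {w : List α | w ∈ L ∧ w.length = n ∧ w.reverse = w}.ncard

/-- The edges of the graph. -/
def R (k : ℕ) (x y : Fin k) : Prop :=
  (x.val + 1 < k ∧ y.val + 1 = k) ∨ x.val + 2 = k ∨ (x.val + 1 = k ∧ y.val = 0)

/-- The walks of the graph. -/
def W (k : ℕ) : Set (List (Fin k)) := {w | List.IsChain (R k) w}

theorem last_rel {k : ℕ} (w : List (Fin k)) (hne : w ≠ []) (b : Fin k) :
    w ++ [b] ∈ W k ↔ w ∈ W k ∧ R k (w.getLast hne) b := by
  show List.IsChain (R k) (w ++ [b]) ↔ List.IsChain (R k) w ∧ _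
  rw [List.isChain_append]
  simp [List.getLast?_eq_some_getLast hne]

theorem isLanguage {k : ℕ} (hk : 4 ≤ k) : IsLanguage (W k) := by
  refine ⟨List.isChain_nil, fun a => List.isChain_singleton a, ?_, ?_, ?_, ?_⟩
  · intro a u h
    exact List.IsChain.tail h
  · intro u b h
    exact List.IsChain.left_of_append h
  · intro v hv
    refine ⟨⟨k - 2, by omega⟩, ?_⟩
    cases v with
    | nil => exact List.isChain_singleton _
    | cons h t =>
      refine List.isChain_cons_cons.2 ⟨?_, hv⟩
      right; left
      show k - 2 + 2 = k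
      omega
  · intro v hv
    by_cases hne : v = []
    · subst hne
      exact ⟨⟨0, by omega⟩, List.isChain_singleton _⟩
    · have hl := (v.getLast hne).isLt
      by_cases h1 : (v.getLast hne).val + 1 = k
      · refine ⟨⟨0, by omega⟩, (last_rel v hne _).2 ⟨hv, ?_⟩⟩
        right; right
        exact ⟨h1, rfl⟩
      · refine ⟨⟨k - 1, by omega⟩, (last_rel v hne _).2 ⟨hv, ?_⟩⟩
        left
        exact ⟨by omega, by show k - 1 + 1 = k; omega⟩

/-- Walks that start in the two-cycle stay in it. -/
theorem stay {k : ℕ} (hk : 4 ≤ k) (w : List (Fin k)) : ∀ h : Fin k, h :: w ∈ W k →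
    (h.val = 0 ∨ h.val + 1 = k) → ∀ x ∈ h :: w, (x.val = 0 ∨ x.val + 1 = k) := by
  induction w with
  | nil =>
    intro h _ hh x hx
    simp only [List.mem_singleton] at hx
    rw [hx]; exact hh
  | cons y t ih =>
    intro h hw hh x hx
    obtain ⟨hR, hc⟩ := List.isChain_cons_cons.1 hw
    rcases List.mem_cons.1 hx with rfl | hx
    · exact hh
    · refine ih y hc ?_ x hx
      rcases hR with ⟨_, h2⟩ | h2 | ⟨_, h2⟩
      · right; exact h2
      · exfalso; omega
      · left; exact h2

theorem bispecial_nil {k : ℕ} (hk : 4 ≤ k) (w : List (Fin k)) (h : Bispecial (W k) w) :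
    w = [] := by
  cases w with
  | nil => rfl
  | cons h0 t =>
    exfalso
    obtain ⟨⟨a, a', haa, h1, h2⟩, ⟨b, b', hbb, h3, h4⟩⟩ := h
    have r1 : R k a h0 := (List.isChain_cons_cons.1 h1).1
    have r2 : R k a' h0 := (List.isChain_cons_cons.1 h2).1
    have hne : h0 :: t ≠ [] := by simp
    have hw : h0 :: t ∈ W k := ((last_rel _ hne b).1 h3).1
    have r3 := ((last_rel _ hne b).1 h3).2
    have r4 := ((last_rel _ hne b').1 h4).2
    have hh : h0.val = 0 ∨ h0.val + 1 = k := by
      by_contra hcon
      push Not at hcon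
      apply haa
      apply Fin.ext
      unfold R at r1 r2
      omega
    have hl := stay hk t h0 hw hh _ (List.getLast_mem hne)
    apply hbb
    apply Fin.ext
    unfold R at r3 r4
    omega

theorem orderCondition {k : ℕ} (hk : 4 ≤ k) :
    OrderCondition (W k) (fun x y => x < y) (fun x y => y < x) := by
  intro v hv x x' y y' h1 h2 hx hy
  have hv0 := bispecial_nil hk v hv
  subst hv0
  have r1 : R k x y := (List.isChain_cons_cons.1 h1).1
  have r2 : R k x' y' := (List.isChain_cons_cons.1 h2).1
  have hx' : x.val ≠ x'.val := fun h => hx (Fin.ext h)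
  have hy' : y.val ≠ y'.val := fun h => hy (Fin.ext h)
  have := x.isLt
  have := x'.isLt
  have := y.isLt
  have := y'.isLt
  unfold R at r1 r2
  show x.val < x'.val ↔ y'.val < y.val
  omega

theorem noConnection {k : ℕ} (hk : 4 ≤ k) (w : List (Fin k)) :
    ¬ HasConnection (W k) (fun x y => x < y) (fun x y => y < x) w := by
  rintro ⟨hw, a, a', b, b', ⟨haa, hac⟩, ⟨hbb, hbc⟩, h1, h2, h3, h4⟩
  have hv0 := bispecial_nil hk w hw
  subst hv0
  have key : ∀ x y : Fin k, x :: ([] ++ [y]) ∈ W k ↔ R k x y := by
    intro x y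
    show List.IsChain (R k) [x, y] ↔ R k x y
    simp
  rw [key] at h1 h2 h3 h4
  have ha := a.isLt
  have ha' := a'.isLt
  have hb := b.isLt
  have hb' := b'.isLt
  have haa' : a.val < a'.val := haa
  have hbb' : b'.val < b.val := hbb
  have ca : a'.val = a.val + 1 := by
    by_contra hcon
    refine hac ⟨a.val + 1, by omega⟩ ⟨?_, ?_⟩
    · show a.val < a.val + 1
      omega
    · show a.val + 1 < a'.val
      omega
  have cb : b.val = b'.val + 1 := by
    by_contra hcon
    refine hbc ⟨b'.val + 1, by omega⟩ ⟨?_, ?_⟩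
    · show b'.val + 1 < b.val
      omega
    · show b'.val < b'.val + 1
      omega
  unfold R at h1 h2 h3 h4
  omega

/-- The two-way edges. -/
theorem both_ways {k : ℕ} (hk : 4 ≤ k) (x y : Fin k) (h1 : R k x y) (h2 : R k y x) :
    (x.val = 0 ∧ y.val + 1 = k) ∨ (x.val + 1 = k ∧ y.val = 0) ∨
      (x.val + 2 = k ∧ y.val + 2 = k) := by
  have := x.isLt
  have := y.isLt
  unfold R at h1 h2
  omega

/-- The involution exchanging the first and the last letter. -/
def sw (k : ℕ) (x : Fin k) : Fin k :=
  if x.val = 0 then ⟨k - 1, by have := x.isLt; omega⟩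
  else if x.val + 1 = k then ⟨0, by have := x.isLt; omega⟩ else x

theorem sw_val {k : ℕ} (x : Fin k) : (sw k x).val =
    if x.val = 0 then k - 1 else if x.val + 1 = k then 0 else x.val := by
  unfold sw
  split_ifs <;> rfl

theorem sw_sw {k : ℕ} (hk : 4 ≤ k) (x : Fin k) : sw k (sw k x) = x := by
  apply Fin.ext
  have := x.isLt
  rw [sw_val, sw_val]
  split_ifs <;> omega

theorem sw_of_both {k : ℕ} (hk : 4 ≤ k) (x y : Fin k) (h1 : R k x y) (h2 : R k y x) :
    y = sw k x := by
  apply Fin.ext
  have := x.isLt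
  have h := both_ways hk x y h1 h2
  rw [sw_val]
  split_ifs <;> omega

/-- The letters `0`, `k - 1`, `k - 2`. -/
def C (k : ℕ) : Set (Fin k) := {x | x.val = 0 ∨ x.val + 1 = k ∨ x.val + 2 = k}

theorem sw_mem {k : ℕ} (hk : 4 ≤ k) (x : Fin k) (hx : x ∈ C k) : sw k x ∈ C k := by
  have := x.isLt
  simp only [C, Set.mem_setOf_eq] at hx ⊢
  rw [sw_val]
  split_ifs <;> omega

theorem R_sw {k : ℕ} (hk : 4 ≤ k) (x : Fin k) (hx : x ∈ C k) : R k x (sw k x) := by
  have := x.isLt
  simp only [C, Set.mem_setOf_eq] at hx
  unfold R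
  rw [sw_val]
  split_ifs <;> omega

theorem iter_mem {k : ℕ} (hk : 4 ≤ k) (x : Fin k) (hx : x ∈ C k) (i : ℕ) :
    (sw k)^[i] x ∈ C k := by
  induction i with
  | zero => exact hx
  | succ i ih =>
    rw [Function.iterate_succ_apply']
    exact sw_mem hk _ ih

/-- The alternating word of length `m` with first letter `x`. -/
def F (k m : ℕ) (x : Fin k) : List (Fin k) := List.ofFn (fun i : Fin m => (sw k)^[i.val] x)

theorem F_mem {k : ℕ} (hk : 4 ≤ k) (m : ℕ) (x : Fin k) (hx : x ∈ C k) : F k m x ∈ W k := by
  show List.IsChain (R k) (F k m x)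
  rw [List.isChain_iff_getElem]
  intro i hi
  simp only [F, List.getElem_ofFn]
  rw [Function.iterate_succ_apply']
  exact R_sw hk _ (iter_mem hk x hx i)

theorem iter_even {k : ℕ} (hk : 4 ≤ k) (x : Fin k) (j : ℕ) : (sw k)^[2 * j] x = x := by
  induction j with
  | zero => rfl
  | succ j ih =>
    rw [show 2 * (j + 1) = (2 * j).succ.succ from by omega, Function.iterate_succ_apply',
      Function.iterate_succ_apply', ih, sw_sw hk]

theorem iter_parity {k : ℕ} (hk : 4 ≤ k) (x : Fin k) (i j : ℕ) (h : i % 2 = j % 2) :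
    (sw k)^[i] x = (sw k)^[j] x := by
  have e : ∀ i : ℕ, (sw k)^[i] x = (sw k)^[i % 2] x := by
    intro i
    conv_lhs => rw [← Nat.mod_add_div i 2, Function.iterate_add_apply, iter_even hk]
  rw [e i, e j, h]

theorem F_reverse {k : ℕ} (hk : 4 ≤ k) (n : ℕ) (x : Fin k) :
    (F k (2 * n + 3) x).reverse = F k (2 * n + 3) x := by
  apply List.ext_getElem
  · simp
  · intro i h1 h2
    simp only [F, List.length_ofFn] at h2
    simp only [F, List.getElem_reverse, List.getElem_ofFn, List.length_ofFn]
    apply iter_parity hk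
    omega

theorem palindrome_eq {k : ℕ} (hk : 4 ≤ k) (n : ℕ) (w : List (Fin k)) (hw : w ∈ W k)
    (hl : w.length = 2 * n + 3) (hr : w.reverse = w) :
    ∃ x ∈ C k, F k (2 * n + 3) x = w := by
  have h1 : List.IsChain (R k) w := hw
  have h2 : List.IsChain (fun a b => R k b a) w := by
    rw [← List.isChain_reverse, hr]
    exact h1
  rw [List.isChain_iff_getElem] at h1 h2
  have h0 : 0 < w.length := by omega
  have hb : ∀ i (hi : i + 1 < w.length), w[i + 1] = sw k w[i] :=
    fun i hi => sw_of_both hk _ _ (h1 i hi) (h2 i hi)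
  have hall : ∀ i (hi : i < w.length), w[i] = (sw k)^[i] w[0] := by
    intro i
    induction i with
    | zero => intro hi; rfl
    | succ i ih =>
      intro hi
      rw [hb i hi, ih (by omega), Function.iterate_succ_apply']
  refine ⟨w[0], ?_, ?_⟩
  · have h := both_ways hk _ _ (h1 0 (by omega)) (h2 0 (by omega))
    simp only [C, Set.mem_setOf_eq]
    omega
  · apply List.ext_getElem
    · simp [F, hl]
    · intro i h3 h4
      simp only [F, List.getElem_ofFn]
      exact (hall i h4).symm

theorem C_eq {k : ℕ} (hk : 4 ≤ k) :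
    C k = {(⟨0, by omega⟩ : Fin k), ⟨k - 1, by omega⟩, ⟨k - 2, by omega⟩} := by
  ext x
  have := x.isLt
  simp only [C, Set.mem_setOf_eq, Set.mem_insert_iff, Set.mem_singleton_iff, Fin.ext_iff]
  omega

theorem PC_eq {k : ℕ} (hk : 4 ≤ k) (n : ℕ) : PC (W k) (2 * n + 3) = 3 := by
  have hset : {w : List (Fin k) | w ∈ W k ∧ w.length = 2 * n + 3 ∧ w.reverse = w} =
      F k (2 * n + 3) '' C k := by
    ext w
    constructor
    · rintro ⟨h1, h2, h3⟩
      obtain ⟨x, hx, hw⟩ := palindrome_eq hk n w h1 h2 h3
      exact ⟨x, hx, hw⟩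
    · rintro ⟨x, hx, rfl⟩
      exact ⟨F_mem hk _ x hx, by simp [F], F_reverse hk n x⟩
  have hinj : Function.Injective (F k (2 * n + 3)) := by
    intro x y hxy
    have h := congrArg (fun l : List (Fin k) => l[0]?) hxy
    simpa [F] using h
  unfold PC
  rw [hset, Set.ncard_image_of_injective _ hinj, C_eq hk]
  rw [Set.ncard_eq_three]
  refine ⟨_, _, _, ?_, ?_, ?_, rfl⟩
  · intro h
    have := Fin.ext_iff.1 h
    simp only at this
    omega
  · intro h
    have := Fin.ext_iff.1 h
    simp only at this
    omega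
  · intro h
    have := Fin.ext_iff.1 h
    simp only at this
    omega

/-- For every `k ≥ 4` there are a language on `k` letters and a symmetric pair of strict total
orders such that the order condition holds, no bispecial word has a connection, and there are
exactly three palindromes of each odd length at least three (hence fewer than `k`). -/
theorem result (k : ℕ) (hk : 4 ≤ k) :
    ∃ (L : Set (List (Fin k))) (rA rD : Fin k → Fin k → Prop),
      IsLanguage L ∧ IsStrictTotalOrder (Fin k) rA ∧ IsStrictTotalOrder (Fin k) rD ∧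
      (∀ x y, rD x y ↔ rA y x) ∧
      OrderCondition L rA rD ∧ (∀ w, ¬ HasConnection L rA rD w) ∧
      ∀ n : ℕ, PC L (2 * n + 3) = 3 ∧ PC L (2 * n + 3) < k := by
  refine ⟨W k, fun x y => x < y, fun x y => y < x, isLanguage hk, ?_, ?_, fun x y => Iff.rfl,
    orderCondition hk, noConnection hk, fun n => ⟨PC_eq hk n, ?_⟩⟩
  · infer_instance
  · infer_instance
  · rw [PC_eq hk n]
    omega

end Pool.Agent.Results.MP_0168d2_co.FewPalindromes
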